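import Pool.Agent.MP_4b8552_co.H88.Defs

/-! The local search count. -/

namespace Pool.Agent.MP_4b8552_co.H88

open Finset

variable {n t : ℕ} {μ : (Fin 3 → Fin n) → ℕ} {M : Finset (Fin 3 → Fin n)} {m e f : Fin 3 → Fin n}
  {i j : Fin 3}

/-- A maximum matching of largest multiplicity. -/
structure Opt (μ : (Fin 3 → Fin n) → ℕ) (M : Finset (Fin 3 → Fin n)) : Prop where
  mat : IsMatching μ M
  max : ∀ M', IsMatching μ M' → M'.card ≤ M.card
  wt : ∀ M', IsMatching μ M' → M'.card = M.card → ∑ e ∈ M', μ e ≤ ∑ e ∈ M, μ e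

lemma exists_opt (μ : (Fin 3 → Fin n) → ℕ) : ∃ M, Opt μ M := by
  obtain ⟨M₀, h1, h2⟩ := Set.exists_max_image {M | IsMatching μ M} card (Set.toFinite _)
    ⟨∅, by simp [IsMatching]⟩
  obtain ⟨M, h3, h4⟩ := Set.exists_max_image {M | IsMatching μ M ∧ M.card = M₀.card}
    (fun M => ∑ e ∈ M, μ e) (Set.toFinite _) ⟨M₀, h1, rfl⟩
  exact ⟨M, h3.1, fun M' h => (h2 M' h).trans_eq h3.2.symm, fun M' h h' => h4 M' ⟨h, h'.trans h3.2⟩⟩

lemma Opt.nu_eq (h : Opt μ M) : nu μ = M.card :=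
  IsGreatest.csSup_eq ⟨⟨M, h.mat, rfl⟩, fun _ ⟨M', h1, h2⟩ => h2 ▸ h.max M' h1⟩

lemma IsMatching.insert (h : IsMatching μ M) (h0 : 0 < μ e) (h1 : ∀ m ∈ M, ∀ i, e i ≠ m i) :
    IsMatching μ (insert e M) ∧ e ∉ M := by
  refine ⟨⟨by simpa [h0] using h.1, ?_⟩, fun h2 => h1 e h2 0 rfl⟩
  simp only [mem_insert]
  rintro a (rfl | ha) b (rfl | hb) hab i
  exacts [absurd rfl hab, h1 b hb i, (h1 a ha i).symm, h.2 a ha b hb hab i]

lemma IsMatching.erase (h : IsMatching μ M) (m) : IsMatching μ (M.erase m) :=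
  ⟨fun e he => h.1 e (mem_of_mem_erase he), fun e he f hf =>
    h.2 e (mem_of_mem_erase he) f (mem_of_mem_erase hf)⟩

/-- The edges that meet the matching only in the vertex `m i`. -/
def Pv (μ : (Fin 3 → Fin n) → ℕ) (M : Finset (Fin 3 → Fin n)) (m : Fin 3 → Fin n) (i : Fin 3) :
    Finset (Fin 3 → Fin n) :=
  {e | 0 < μ e ∧ e i = m i ∧ ∀ j ≠ i, ∀ m' ∈ M, e j ≠ m' j}

lemma mem_Pv : e ∈ Pv μ M m i ↔ 0 < μ e ∧ e i = m i ∧ ∀ j ≠ i, ∀ m' ∈ M, e j ≠ m' j := by
  simp [Pv]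

lemma IsMatching.free (h : IsMatching μ M) (hm : m ∈ M) (he : e ∈ Pv μ M m i) :
    ∀ m' ∈ M.erase m, ∀ j, e j ≠ m' j := fun m' hm' j => by
  obtain ⟨-, h1, h2⟩ := mem_Pv.1 he
  obtain rfl | h3 := eq_or_ne j i
  · exact h1 ▸ h.2 m hm m' (mem_of_mem_erase hm') (ne_of_mem_erase hm').symm j
  · exact h2 j h3 m' (mem_of_mem_erase hm')

lemma Opt.le (h : Opt μ M) (hm : m ∈ M) (he : e ∈ Pv μ M m i) : μ e ≤ μ m := by
  obtain ⟨h1, h2⟩ := (h.mat.erase m).insert (mem_Pv.1 he).1 (h.mat.free hm he)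
  have := h.wt _ h1 (by rw [card_insert_of_notMem h2, card_erase_add_one hm])
  rw [sum_insert h2, ← add_sum_erase _ _ hm] at this
  omega

lemma Opt.meet (h : Opt μ M) (hm : m ∈ M) (he : e ∈ Pv μ M m i) (hf : f ∈ Pv μ M m j)
    (hij : i ≠ j) {k : Fin 3} (hi : k ≠ i) (hj : k ≠ j) : e k = f k := by
  by_contra hc
  obtain ⟨h1, h2⟩ := (h.mat.erase m).insert (mem_Pv.1 he).1 (h.mat.free hm he)
  obtain ⟨h3, h4⟩ := h1.insert (mem_Pv.1 hf).1 fun a ha l => by
    obtain rfl | ha := mem_insert.1 ha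
    · obtain rfl | rfl | rfl : l = i ∨ l = j ∨ l = k := by omega
      · exact (mem_Pv.1 he).2.1 ▸ (mem_Pv.1 hf).2.2 l hij m hm
      · exact (mem_Pv.1 hf).2.1 ▸ ((mem_Pv.1 he).2.2 l hij.symm m hm).symm
      · exact Ne.symm hc
    · exact h.mat.free hm hf a ha l
  have := h.max _ h3
  rw [card_insert_of_notMem h4, card_insert_of_notMem h2, card_erase_add_one hm] at this
  omega

lemma Regular.le (hr : Regular t μ) {S : Finset (Fin 3 → Fin n)} (i) (v) (h : ∀ e ∈ S, e i = v) :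
    ∑ e ∈ S, μ e ≤ t := hr i v ▸ sum_le_sum_of_subset fun e he => by simpa using h e he

lemma Regular.one (hr : Regular t μ) (i) : ∑ e ∈ Pv μ M m i, μ e ≤ t :=
  hr.le i _ fun _ he => (mem_Pv.1 he).2.1

lemma Opt.two (h : Opt μ M) (hr : Regular t μ) (hm : m ∈ M) (hij : i ≠ j) :
    ∑ e ∈ Pv μ M m i, μ e + ∑ e ∈ Pv μ M m j, μ e ≤ t := by
  obtain h1 | ⟨e, he⟩ := (Pv μ M m i).eq_empty_or_nonempty
  · simpa [h1] using hr.one j
  obtain h2 | ⟨f, hf⟩ := (Pv μ M m j).eq_empty_or_nonempty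
  · simpa [h2] using hr.one i
  obtain ⟨k, hi, hj⟩ : ∃ k, k ≠ i ∧ k ≠ j := (by decide : ∀ i j : Fin 3, ∃ k, k ≠ i ∧ k ≠ j) i j
  rw [← sum_union (disjoint_left.2 fun a ha hb =>
    (mem_Pv.1 hb).2.2 i hij m hm (mem_Pv.1 ha).2.1)]
  exact hr.le k (e k) fun a ha => (mem_union.1 ha).elim
    (fun ha => (h.meet hm ha hf hij hi hj).trans (h.meet hm he hf hij hi hj).symm)
    fun ha => (h.meet hm he ha hij hi hj).symm

/-- The matching edges inside a copy of `(t/2) · F`. -/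
def Bad (t : ℕ) (μ : (Fin 3 → Fin n) → ℕ) (M : Finset (Fin 3 → Fin n)) (m : Fin 3 → Fin n) : Prop :=
  ∃ y : Fin 3 → Fin n, (∀ i, ∀ m' ∈ M, y i ≠ m' i) ∧ 2 * μ m = t ∧
    ∀ i, 2 * μ (Function.update y i (m i)) = t

open Classical in
lemma Opt.loc (h : Opt μ M) (hr : Regular t μ) (hm : m ∈ M) :
    ∑ i, ∑ e ∈ Pv μ M m i, μ e + 1 ≤ t + μ m + if Bad t μ M m then 1 else 0 := by
  have h0 := h.mat.1 m hm
  have h1 := h.two hr hm (i := 0) (j := 1) (by decide)
  have h2 := h.two hr hm (i := 0) (j := 2) (by decide)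
  have h3 := h.two hr hm (i := 1) (j := 2) (by decide)
  rw [Fin.sum_univ_three]
  obtain h4 | ⟨a, ha⟩ := (Pv μ M m 0).eq_empty_or_nonempty
  · rw [h4, sum_empty]; omega
  obtain h4 | ⟨b, hb⟩ := (Pv μ M m 1).eq_empty_or_nonempty
  · rw [h4, sum_empty]; omega
  obtain h4 | ⟨c, hc⟩ := (Pv μ M m 2).eq_empty_or_nonempty
  · rw [h4, sum_empty]; omega
  have key : ∀ i j k : Fin 3, i ≠ j → i ≠ k → j ≠ k → ∀ a ∈ Pv μ M m i, ∀ b ∈ Pv μ M m j,
      ∀ c ∈ Pv μ M m k, Pv μ M m i = {a} := fun i j k h1 h2 h3 a ha b hb c hc =>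
    eq_singleton_iff_unique_mem.2 ⟨ha, fun e he => funext fun l => by
      obtain rfl | rfl | rfl : l = i ∨ l = j ∨ l = k := by omega
      · exact (mem_Pv.1 he).2.1.trans (mem_Pv.1 ha).2.1.symm
      · exact (h.meet hm he hc h2 h1.symm h3).trans (h.meet hm ha hc h2 h1.symm h3).symm
      · exact (h.meet hm he hb h1 h2.symm h3.symm).trans (h.meet hm ha hb h1 h2.symm h3.symm).symm⟩
  have k0 := key 0 1 2 (by decide) (by decide) (by decide) a ha b hb c hc
  have k1 := key 1 0 2 (by decide) (by decide) (by decide) b hb a ha c hc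
  have k2 := key 2 0 1 (by decide) (by decide) (by decide) c hc a ha b hb
  rw [k0, k1, sum_singleton, sum_singleton] at h1
  rw [k0, k2, sum_singleton, sum_singleton] at h2
  rw [k1, k2, sum_singleton, sum_singleton] at h3
  rw [k0, k1, k2, sum_singleton, sum_singleton, sum_singleton]
  have l0 := h.le hm ha
  have l1 := h.le hm hb
  have l2 := h.le hm hc
  split_ifs with h5
  · omega
  by_contra h6
  have e0 := h.meet hm hb hc (by decide) (k := 0) (by decide) (by decide)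
  have e1 := h.meet hm ha hc (by decide) (k := 1) (by decide) (by decide)
  have e2 := h.meet hm ha hb (by decide) (k := 2) (by decide) (by decide)
  rw [mem_Pv] at ha hb hc
  refine h5 ⟨![b 0, a 1, a 2], fun i => ?_, by omega, fun i => ?_⟩
  · fin_cases i
    exacts [hb.2.2 0 (by decide), ha.2.2 1 (by decide), ha.2.2 2 (by decide)]
  · have : Function.update ![b 0, a 1, a 2] i (m i) = ![a, b, c] i := by
      funext l
      fin_cases i <;> fin_cases l <;> simp [*]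
    rw [this]
    fin_cases i <;> simp <;> omega

lemma Opt.point (h : Opt μ M) (e : Fin 3 → Fin n) :
    2 * μ e + (if e ∈ M then μ e else 0) ≤
      ∑ m ∈ M, ∑ i, ((if e i = m i then μ e else 0) + if e ∈ Pv μ M m i then μ e else 0) := by
  obtain h0 | h0 := (μ e).eq_zero_or_pos
  · simp [h0]
  rw [← sum_product']
  by_cases h1 : e ∈ M
  · refine le_trans ?_ (sum_le_sum_of_subset (s := {e} ×ˢ univ)
      (product_subset_product_left (singleton_subset_iff.2 h1)))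
    simp [h1, Fin.sum_univ_three]
    omega
  obtain ⟨m, hm, i, hi⟩ : ∃ m ∈ M, ∃ i, e i = m i := by
    by_contra hc
    push Not at hc
    obtain ⟨h2, h3⟩ := h.mat.insert h0 hc
    have := h.max _ h2
    rw [card_insert_of_notMem h3] at this
    omega
  by_cases h2 : e ∈ Pv μ M m i
  · refine le_trans ?_ (single_le_sum (a := (m, i)) (fun _ _ => Nat.zero_le _) (by simpa using hm))
    simp [h1, h2, hi, two_mul]
  · obtain ⟨j, hj, m', hm', h3⟩ : ∃ j ≠ i, ∃ m' ∈ M, e j = m' j := by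
      simpa [mem_Pv, h0, hi] using h2
    refine le_trans ?_ (sum_le_sum_of_subset (s := {(m, i), (m', j)})
      (by simp [insert_subset_iff, hm, hm']))
    rw [sum_pair fun e => hj (Prod.ext_iff.1 e).2.symm]
    simp only [h1, hi, h3, if_true, if_false]
    omega

theorem count (hr : Regular t μ) : 2 * t * n + nu μ ≤ 4 * t * nu μ + (copies t μ).ncard := by
  classical
  obtain ⟨M, h⟩ := exists_opt μ
  have h1 := sum_le_sum fun e (_ : e ∈ univ) => h.point e
  have h2 : ∑ e, μ e = t * n := by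
    rw [← sum_fiberwise (s := univ) (g := fun e => e 0)]
    simp [hr 0, mul_comm]
  have h3 : ∀ (m : Fin 3 → Fin n) i, ∑ e, (if e i = m i then μ e else 0) = t := fun m i => by
    rw [← sum_filter]; exact hr i _
  rw [sum_add_distrib, ← mul_sum, h2, sum_ite_mem, univ_inter, sum_comm] at h1
  simp only [sum_comm (s := univ (α := Fin 3 → Fin n)), sum_add_distrib, h3, sum_ite_mem,
    univ_inter, sum_const, card_univ, Fintype.card_fin, smul_eq_mul] at h1
  have h4 := sum_le_sum fun m (hm : m ∈ M) => h.loc hr hm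
  simp only [sum_add_distrib, sum_const, smul_eq_mul, sum_boole, Nat.cast_id] at h4
  have h5 : #{m ∈ M | Bad t μ M m} ≤ (copies t μ).ncard := by
    rw [Set.ncard_eq_toFinset_card']
    refine card_le_card_of_forall_subsingleton
      (fun m S => ∃ v, S 0 = {m 0, v} ∧ ∀ m' ∈ M, v ≠ m' 0) (fun m hm => ?_) fun S _ a ha b hb => ?_
    · obtain ⟨hm, y, h5, h6, h7⟩ := mem_filter.1 hm
      exact ⟨fun i => {m i, y i}, Set.mem_toFinset.2 ⟨m, y, fun i => (h5 i m hm).symm,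
        fun _ => rfl, h6, h7⟩, y 0, rfl, h5 0⟩
    · obtain ⟨ha, u, h5, -⟩ := ha
      obtain ⟨hb, v, h7, h8⟩ := hb
      have ha := (mem_filter.1 ha).1
      have : a 0 ∈ ({b 0, v} : Finset (Fin n)) := by simp [← h7, h5]
      exact by_contra fun h9 => h.mat.2 a ha b (mem_filter.1 hb).1 h9 0
        ((mem_insert.1 this).resolve_right fun e => h8 a ha (mem_singleton.1 e).symm)
  rw [h.nu_eq]
  nlinarith

end Pool.Agent.MP_4b8552_co.H88
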