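import Mathlib

/-! Tripartite 3-graphs with multiple edges. An edge picks one vertex `e i` in each class `i`,
and `μ e` is its multiplicity. -/

namespace Pool.Agent.MP_4b8552_co.H88

open Finset

variable {n : ℕ}

/-- Every vertex lies in exactly `t` edges, counted with multiplicity. -/
def Regular (t : ℕ) (μ : (Fin 3 → Fin n) → ℕ) : Prop :=
  ∀ (i : Fin 3) (v : Fin n), ∑ e with e i = v, μ e = t

/-- A set of pairwise disjoint edges. -/
def IsMatching (μ : (Fin 3 → Fin n) → ℕ) (M : Finset (Fin 3 → Fin n)) : Prop :=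
  (∀ e ∈ M, 0 < μ e) ∧ ∀ e ∈ M, ∀ f ∈ M, e ≠ f → ∀ i, e i ≠ f i

/-- The matching number. -/
noncomputable def nu (μ : (Fin 3 → Fin n) → ℕ) : ℕ :=
  sSup {k | ∃ M, IsMatching μ M ∧ M.card = k}

/-- The vertex sets `{x i, y i}` of the copies of `(t/2) · F`: the four edges `x₁x₂x₃`, `x₁y₂y₃`,
`y₁x₂y₃`, `y₁y₂x₃` have multiplicity `t/2`. -/
def copies (t : ℕ) (μ : (Fin 3 → Fin n) → ℕ) : Set (Fin 3 → Finset (Fin n)) :=
  {S | ∃ x y : Fin 3 → Fin n, (∀ i, x i ≠ y i) ∧ (∀ i, S i = {x i, y i}) ∧ 2 * μ x = t ∧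
    ∀ i, 2 * μ (Function.update y i (x i)) = t}

end Pool.Agent.MP_4b8552_co.H88
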